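import Pool.Agent.Y223.INV.Fin

/-!
MP_4d1008_ag: every integral scheme of finite type over `ℤ` birational to the quotient of a regular
projective scheme (over a domain `O` which is finite over `ℤ`) by an involution has a regular model
proper over `ℤ`, under a condition of nondegeneracy at the fixed points of residue
characteristic `2`. The involution may be wild, and its fixed points need not be isolated.
-/

set_option autoImplicit false

open AlgebraicGeometry CategoryTheory IsLocalRing

namespace Pool.Agent.Results.MP_4d1008_ag.InvolutionQuotients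

/-- The ring `O[H l / H j]` of the chart `H j ≠ 0` of the projective scheme over `O` with the
homogeneous coordinates `H l ∈ K`. -/
def chart (O : Type) {K : Type} [CommRing O] [Field K] [Algebra O K] {ι : Type} (H : ι → K)
    (j : ι) : Subring K :=
  (Algebra.adjoin O (Set.range fun l => H l / H j)).toSubring

variable {O K : Type} [CommRing O] [Field K] [Algebra O K]

/-- The local ring at the point `𝔮` of the chart. -/
noncomputable abbrev localRing {ι : Type} (H : ι → K) (j : ι) (𝔮 : Ideal (chart O H j)) [𝔮.IsPrime] :
    Subring K :=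
  (LocalSubring.ofPrime (chart O H j) 𝔮).toSubring

/-- The ideal of the centre at a point of the chart `h ≠ 0` with the local ring `R`: the centre is
cut out by the sections in `I`. -/
def centre (I : Submodule O K) (h : K) (R : Subring K) : Ideal R :=
  Ideal.span {y : R | ∃ n ∈ I, (y : K) = n / h}

variable (σ : K ≃ₐ[O] K)

/-- The point with the local ring `R` is a point of the fixed scheme of `σ`: the ring `R` is stable
under `σ`, which acts trivially on the residue field. -/
def IsFixed (R : Subring K) : Prop :=
  ∀ x : R, ∃ y : R, (y : K) = σ x ∧ ¬ IsUnit (y - x)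

/-- `σ = 1 + t δ` on `R`, where the ideal generated by the image of `δ` is the unit ideal, or has a
regular quotient. -/
def RegularWild (R : Subring K) : Prop :=
  ∃ (t : R) (δ : R → R), t ≠ 0 ∧ (∀ x : R, σ x = x + t * δ x) ∧
    (Ideal.span (Set.range δ) = ⊤ ∨ IsRegularLocalRing (R ⧸ Ideal.span (Set.range δ)))

/-- `σ = 1 + t δ` on `R`, and `δ ∘ δ = ε δ`, where `ε` and the image of `δ` are in the ideal `I` of
the centre, and `δ` maps `I` into `I ^ 2`, and the leading form of `δ` along the centre has no
zeros. -/
def NondegenerateWild (R : Subring K) (I : Ideal R) : Prop :=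
  ∃ (t ε : R) (δ : R → R), t ≠ 0 ∧ (∀ x : R, σ x = x + t * δ x) ∧ (∀ x, δ (δ x) = ε * δ x) ∧
    ε ∈ I ∧ (∀ x, δ x ∈ I) ∧ (∀ x ∈ I, δ x ∈ I ^ 2) ∧
    ∃ n : ℕ, I ^ (n + 2) ≤ (Ideal.span {ε} ⊔ Ideal.span (Set.range δ)) * I ^ (n + 1) ⊔
      Ideal.span (δ '' I) * I ^ n

/-- The condition at the point with the local ring `R`, where `I` is the ideal of the centre: the
centre is empty or regular at this point, and if it is a fixed point of `σ` of residue
characteristic `2`, then `σ` is `RegularWild` outside of the centre and `NondegenerateWild` along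
the centre. -/
def Condition (R : Subring K) (I : Ideal R) : Prop :=
  (I = ⊤ ∨ IsRegularLocalRing (R ⧸ I)) ∧
    (¬ IsUnit (2 : R) → IsFixed σ R →
      (I = ⊤ → RegularWild σ R) ∧ (I ≠ ⊤ → NondegenerateWild σ R I))

/-- Let `O` be an integral domain which is finite over `ℤ` (an order in a number field, or a finite
field) and `X` a regular projective scheme over `O` with the function field `K` and the homogeneous
coordinates `H j`, and let `σ ≠ 1` be an involution of `K` over `O` which maps the space spanned by
the `H j` into itself, so that `σ` acts on `X`. Let `I ≠ 0` be a submodule of that space, stable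
under `σ`, which cuts out a regular closed subscheme of `X` (possibly empty), the centre, such that
at the fixed points of residue characteristic `2` the involution `σ` is `RegularWild` outside of the
centre and `NondegenerateWild` along the centre. Then every integral scheme `Y` of finite type over
`ℤ` which is birational to `X / σ` has a regular model proper over `ℤ`. -/
theorem result {O K : Type} [CommRing O] [IsDomain O] [Module.Finite ℤ O] [Field K]
    [Algebra O K] (hO : Function.Injective (algebraMap O K)) {ι : Type} [Finite ι] [Nonempty ι]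
    (H : ι → K) (hH : ∀ j, H j ≠ 0) (hreg : ∀ j, IsRegularRing (chart O H j))
    (hfrac : ∀ j, Subfield.closure (chart O H j : Set K) = ⊤)
    (σ : K ≃ₐ[O] K) (hσ : ∀ x, σ (σ x) = x) (hσ1 : σ ≠ 1)
    (hσH : ∀ j, σ (H j) ∈ Submodule.span O (Set.range H))
    (I : Submodule O K) (hI : I ≤ Submodule.span O (Set.range H)) (hI0 : I ≠ ⊥)
    (hσI : ∀ x ∈ I, σ x ∈ I)
    (hpt : ∀ j (𝔮 : Ideal (chart O H j)) [𝔮.IsPrime],
      Condition σ (localRing H j 𝔮) (centre I (H j) (localRing H j 𝔮)))
    (F : Subfield K) (hF : ∀ x, x ∈ F ↔ σ x = x)
    (Y : Scheme.{0}) (_ : IsIntegral Y) (s : Y ⟶ Spec (CommRingCat.of ℤ))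
    (_ : LocallyOfFiniteType s) (_ : QuasiCompact s)
    (_ : Nonempty (Y.functionField ≃+* F)) :
    ∃ (X' : Scheme.{0}) (_ : IsIntegral X') (g : X' ⟶ Spec (CommRingCat.of ℤ)),
      IsProper g ∧
      (∀ x : X',
        (((Module.finrank (IsLocalRing.ResidueField (X'.presheaf.stalk x))
            (IsLocalRing.CotangentSpace (X'.presheaf.stalk x)) : ℕ∞)) : WithBot ℕ∞)
          = ringKrullDim (X'.presheaf.stalk x)) ∧
      Nonempty (X'.functionField ≃+* Y.functionField) := by
  obtain ⟨i⟩ := ‹Nonempty (Y.functionField ≃+* F)›
  have hσ1' : ∃ x, σ x ≠ x := by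
    by_contra hcon
    push Not at hcon
    exact hσ1 (AlgEquiv.ext hcon)
  exact Pool.Agent.Y223.INV.inv_final hO H hH hreg (Classical.arbitrary ι)
    (hfrac (Classical.arbitrary ι)) σ hσ hσ1' hσH I hI hI0 hσI hpt F hF i

end Pool.Agent.Results.MP_4d1008_ag.InvolutionQuotients
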